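import Pool.Agent.Y766.R8.Stm
import Pool.Agent.Y870.R3.Phi
import Pool.Agent.Y924.R7.Lin

/-!
# Short sums of a primitive character mod `p^ν` over an arithmetic progression mod `p^m`
-/

set_option autoImplicit false

namespace Pool.Agent.Y674.R8

open Finset
open Pool.Agent.Y924.R7.Lin (gg gg_nonneg norm_lower geo class_sum AA card_class)

theorem srec (b P N : ℕ) (hb : 1 ≤ b) (hP : 1 ≤ P) (hN : 1 ≤ N) :
    ∑ i ∈ range N, 1 / ((b : ℝ) + P * i) ≤ 1 / b + (1 + Real.log N) / P := by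
  obtain ⟨n, rfl⟩ : ∃ n, N = n + 1 := ⟨N - 1, by omega⟩
  rw [Finset.sum_range_succ']
  have hPr : (0 : ℝ) < P := by exact_mod_cast hP
  have hbr : (0 : ℝ) < b := by exact_mod_cast hb
  have h1 : ∑ i ∈ range n, 1 / ((b : ℝ) + P * ((i + 1 : ℕ) : ℝ)) ≤
      ∑ i ∈ range n, (1 / ((i + 1 : ℕ) : ℝ)) / P := by
    apply Finset.sum_le_sum
    intro i _
    rw [div_div]
    apply one_div_le_one_div_of_le
    · positivity
    · rw [mul_comm]; linarith
  have h2 := harmonic_le_one_add_log n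
  have h3 : ((harmonic n : ℚ) : ℝ) = ∑ i ∈ range n, 1 / ((i + 1 : ℕ) : ℝ) := by
    unfold harmonic
    push_cast
    exact Finset.sum_congr rfl fun b _ => by rw [one_div]
  have h4 : Real.log n ≤ Real.log ((n + 1 : ℕ) : ℝ) := by
    rcases Nat.eq_zero_or_pos n with h | h
    · subst h; simp
    · exact Real.log_le_log (by exact_mod_cast h) (by push_cast; linarith)
  rw [← Finset.sum_div, ← h3] at h1
  have h5 : ((harmonic n : ℚ) : ℝ) / P ≤ (1 + Real.log ((n + 1 : ℕ) : ℝ)) / P := by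
    apply div_le_div_of_nonneg_right _ hPr.le
    linarith
  have h6 : 1 / ((b : ℝ) + P * ((0 : ℕ) : ℝ)) = 1 / b := by simp
  rw [h6]
  linarith

/-- the sum over a residue class with a small numerator -/
theorem csum (P N l0 : ℕ) (a : ℤ) (hP : 1 ≤ P) (hN : 1 ≤ N) (hcop : IsCoprime (P : ℤ) (l0 : ℤ))
    (hl : 1 ≤ l0) (ha : 2 * |a| ≤ P) (hla : ¬ (l0 : ℤ) ∣ a) (q : ℕ) (hq : q = P * N)
    (S : Finset ℕ) (hS : ∀ b ∈ S, b < q ∧ (P : ℤ) ∣ l0 * b - a) :
    ∑ b ∈ S, gg q b ≤ q * (2 * l0 + 1 + Real.log N) / P := by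
  have hPr : (0 : ℝ) < P := by exact_mod_cast hP
  have hlr : (0 : ℝ) < l0 := by exact_mod_cast hl
  have hlogN : 0 ≤ Real.log N := Real.log_natCast_nonneg N
  rcases S.eq_empty_or_nonempty with hS0 | ⟨b0, hb0⟩
  · rw [hS0, Finset.sum_empty]; positivity
  obtain ⟨hb0q, hb0d⟩ := hS b0 hb0
  obtain ⟨b1, hb1⟩ : ∃ b1, b1 = b0 % P := ⟨_, rfl⟩
  have hb1P : b1 < P := by rw [hb1]; exact Nat.mod_lt _ (by omega)
  -- `l0 b1 = a + i P`
  have hd1 : (P : ℤ) ∣ l0 * b1 - a := by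
    have e : (l0 * b1 - a : ℤ) = (l0 * b0 - a) - P * (l0 * ((b0 / P : ℕ) : ℤ)) := by
      have : (b1 : ℤ) = b0 - P * ((b0 / P : ℕ) : ℤ) := by
        rw [hb1]
        have := Nat.mod_add_div b0 P
        zify at this ⊢
        linarith
      rw [this]; ring
    rw [e]
    exact dvd_sub hb0d (Dvd.intro _ rfl)
  obtain ⟨i, hi⟩ := hd1
  have ha' := abs_le.1 (show |a| ≤ |a| from le_rfl)
  have hPz : (0 : ℤ) < P := by exact_mod_cast hP
  have hlz : (0 : ℤ) < l0 := by exact_mod_cast hl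
  have hi0 : 0 < i := by
    by_contra hcon
    rcases lt_or_eq_of_le (not_lt.1 hcon) with h | h
    · have h1 : (0 : ℤ) ≤ l0 * b1 := by positivity
      nlinarith
    · apply hla
      rw [h, mul_zero, sub_eq_zero] at hi
      exact ⟨b1, hi.symm⟩
  have hb1low : (P : ℤ) ≤ 2 * (l0 * b1) := by nlinarith
  have hil : i < l0 := by
    by_contra hcon
    rcases lt_or_eq_of_le (not_lt.1 hcon) with h | h
    · have h1 : (b1 : ℤ) < P := by exact_mod_cast hb1P
      nlinarith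
    · apply hla
      refine ⟨(b1 : ℤ) - P, ?_⟩
      linear_combination (-1 : ℤ) * hi + (P : ℤ) * h
  have hb1up : (P : ℤ) ≤ 2 * (l0 * (P - b1)) := by nlinarith
  have hb1pos : 1 ≤ b1 := by
    rcases Nat.eq_zero_or_pos b1 with h | h
    · rw [h] at hb1low; simp at hb1low; omega
    · exact h
  have hbr1 : (0 : ℝ) < b1 := by exact_mod_cast hb1pos
  have h1b : 1 / (b1 : ℝ) ≤ 2 * l0 / P := by
    rw [div_le_div_iff₀ hbr1 hPr]
    have : ((P : ℤ) : ℝ) ≤ ((2 * (l0 * b1) : ℤ) : ℝ) := by exact_mod_cast hb1low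
    push_cast at this
    linarith
  have h2b : 1 / ((P - b1 : ℕ) : ℝ) ≤ 2 * l0 / P := by
    rw [Nat.cast_sub hb1P.le]
    have h0 : (0 : ℝ) < (P : ℝ) - b1 := by
      have : (b1 : ℝ) < P := by exact_mod_cast hb1P
      linarith
    rw [div_le_div_iff₀ h0 hPr]
    have : ((P : ℤ) : ℝ) ≤ ((2 * (l0 * (P - b1)) : ℤ) : ℝ) := by exact_mod_cast hb1up
    push_cast at this
    linarith
  -- the class
  have hmod : ∀ b ∈ S, b = b1 + P * (b / P) := by
    intro b hb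
    obtain ⟨_, hbd⟩ := hS b hb
    have h3 : (P : ℤ) ∣ l0 * ((b : ℤ) - b0) := by
      have := dvd_sub hbd hb0d
      have e : (l0 * b - a : ℤ) - (l0 * b0 - a) = l0 * ((b : ℤ) - b0) := by ring
      rwa [e] at this
    have h4 : (P : ℤ) ∣ (b : ℤ) - b0 := hcop.dvd_of_dvd_mul_left h3
    have h5 : b % P = b0 % P := by
      have h6 : (b : ℤ) % P = (b0 : ℤ) % P := 
        Int.emod_eq_emod_iff_emod_sub_eq_zero.2 (Int.emod_eq_zero_of_dvd h4)
      exact_mod_cast h6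
    rw [hb1, ← h5]
    exact (Nat.mod_add_div b P).symm
  have hsub : S ⊆ (range N).image (fun i => b1 + P * i) := by
    intro b hb
    rw [mem_image]
    refine ⟨b / P, ?_, (hmod b hb).symm⟩
    rw [mem_range]
    apply Nat.div_lt_of_lt_mul
    rw [← hq]
    exact (hS b hb).1
  have hinj : Set.InjOn (fun i => b1 + P * i) (range N : Set ℕ) := by
    intro x _ y _ hxy
    have : P * x = P * y := by simpa using hxy
    exact Nat.eq_of_mul_eq_mul_left (by omega) this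
  have hle : ∀ i ∈ range N, b1 + P * i < q := by
    intro i hi
    rw [mem_range] at hi
    rw [hq]
    calc b1 + P * i < P + P * i := by omega
      _ = P * (i + 1) := by ring
      _ ≤ P * N := Nat.mul_le_mul_left _ hi
  have hs1 : ∑ b ∈ S, gg q b ≤ ∑ i ∈ range N, gg q (b1 + P * i) := by
    calc ∑ b ∈ S, gg q b ≤ ∑ b ∈ (range N).image (fun i => b1 + P * i), gg q b := by
          apply Finset.sum_le_sum_of_subset_of_nonneg hsub
          intro b hb _
          rw [mem_image] at hb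
          obtain ⟨i, hi, rfl⟩ := hb
          exact gg_nonneg (hle i hi).le
      _ = _ := Finset.sum_image hinj
  refine hs1.trans ?_
  have hs2 : ∑ i ∈ range N, gg q (b1 + P * i) = (q : ℝ) / 2 *
      (∑ i ∈ range N, 1 / ((b1 : ℝ) + P * i) +
        ∑ i ∈ range N, 1 / (((P - b1 : ℕ) : ℝ) + P * i)) := by
    rw [← Finset.sum_range_reflect (fun i => 1 / (((P - b1 : ℕ) : ℝ) + P * (i : ℕ))) N,
      ← Finset.sum_add_distrib, Finset.mul_sum]
    apply Finset.sum_congr rfl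
    intro i hi
    rw [mem_range] at hi
    unfold gg
    congr 2
    · push_cast; ring
    · congr 1
      have e : ((N - 1 - i : ℕ) : ℝ) = (N : ℝ) - 1 - i := by
        rw [Nat.cast_sub (by omega), Nat.cast_sub (by omega)]; simp
      rw [e, hq, Nat.cast_sub hb1P.le]
      push_cast
      ring
  rw [hs2]
  have h3 := srec b1 P N hb1pos hP hN
  have h4 := srec (P - b1) P N (by omega) hP hN
  calc (q : ℝ) / 2 * (∑ i ∈ range N, 1 / ((b1 : ℝ) + P * i) +
        ∑ i ∈ range N, 1 / (((P - b1 : ℕ) : ℝ) + P * i))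
      ≤ (q : ℝ) / 2 * ((2 * l0 / P + (1 + Real.log N) / P) +
          (2 * l0 / P + (1 + Real.log N) / P)) := by
        apply mul_le_mul_of_nonneg_left _ (by positivity)
        linarith
    _ = q * (2 * l0 + 1 + Real.log N) / P := by ring

theorem inc : Pool.Agent.Y766.R8.S_INC := by
  intro p ν m hp hp2 hm hmν χ hχ
  classical
  obtain ⟨c, hc⟩ : ∃ c, c = (ν + 1) / 2 := ⟨_, rfl⟩
  obtain ⟨r, hr⟩ : ∃ r, r = ν - c := ⟨_, rfl⟩
  have hrc : r + c = ν := by omega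
  have hr1 : 1 ≤ r := by omega
  have hmr : m ≤ r := by omega
  have hrlec : r ≤ c := by omega
  have : Fact p.Prime := ⟨hp⟩
  have : NeZero (p ^ (ν - c)) := ⟨pow_ne_zero _ hp.ne_zero⟩
  obtain ⟨Φ, hΦ1, hΦ2, hΦ3⟩ := Pool.Agent.Y870.R3.phi p ν c hp hp2 (by omega) (by omega) χ hχ
  obtain ⟨A, hA, hΦA⟩ := hΦ3 0 (by omega) (by omega)
  rw [← hc]
  have hpc : ((p : ZMod (p ^ (ν - c)))) ^ c = 0 := Pool.Agent.Y779.R3.pi_zero (by omega)
  have hpz : Prime (p : ℤ) := Nat.prime_iff_prime_int.1 hp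
  have hunit : ∀ x : ℤ, ¬ (p : ℤ) ∣ x → IsUnit (x : ZMod (p ^ (ν - c))) := fun x hx =>
    Pool.Agent.Y779.R3.unit_int hp hx
  have h2p : ¬ (p : ℤ) ∣ 2 := by
    intro h
    have := Int.natCast_dvd_natCast.1 (show (p : ℤ) ∣ ((2 : ℕ) : ℤ) from h)
    exact hp2 ((Nat.prime_dvd_prime_iff_eq hp Nat.prime_two).1 this)
  -- the values of `Φ`
  have hval : ∀ y, Φ y = Φ 0 * ZMod.stdAddChar (A * y) := by
    intro y
    have := hΦA 0 y
    simpa using this
  have hΦ0 : Φ 0 = 1 := by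
    have h1 := hΦ2 0 1
    have hn1 : ¬ (p : ℤ) ∣ 1 := fun h => hpz.not_isUnit (isUnit_of_dvd_one h)
    rw [if_neg hn1] at h1
    simp only [Pool.Agent.Y766.R3.FF, mul_zero, add_zero, Int.cast_one, map_one, mul_one,
      Int.cast_zero, zero_mul] at h1
    exact h1.symm
  have hnorm : ∀ n : ℤ, ¬ (p : ℤ) ∣ n → (starRingEnd ℂ) (χ (n : ZMod (p ^ ν))) *
      χ (n : ZMod (p ^ ν)) = 1 := by
    intro n hn
    have hu : IsUnit (n : ZMod (p ^ ν)) := Pool.Agent.Y779.R3.unit_int hp hn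
    have h1 := DirichletCharacter.unit_norm_eq_one χ hu.unit
    rw [IsUnit.unit_spec] at h1
    rw [mul_comm, Complex.mul_conj, Complex.normSq_eq_norm_sq, h1]
    simp
  have hchi : ∀ n l : ℤ, ¬ (p : ℤ) ∣ n → χ ((n + (p : ℤ) ^ c * l : ℤ) : ZMod (p ^ ν)) =
      χ (n : ZMod (p ^ ν)) *
        ZMod.stdAddChar (A * ((2 * n : ℤ) : ZMod (p ^ (ν - c)))⁻¹ * (l : ZMod (p ^ (ν - c)))) := by
    intro n l hn
    have h1 := hΦ2 l n
    rw [if_neg hn, hval, hΦ0, one_mul] at h1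
    have e1 : ((2 * n + (p : ℤ) ^ c * l : ℤ) : ZMod (p ^ (ν - c))) =
        ((2 * n : ℤ) : ZMod (p ^ (ν - c))) := by
      push_cast
      rw [hpc]; ring
    rw [e1] at h1
    unfold Pool.Agent.Y766.R3.FF at h1
    have h2 := hnorm n hn
    calc χ ((n + (p : ℤ) ^ c * l : ℤ) : ZMod (p ^ ν)) =
        (χ ((n + (p : ℤ) ^ c * l : ℤ) : ZMod (p ^ ν)) *
          (starRingEnd ℂ) (χ (n : ZMod (p ^ ν)))) * χ (n : ZMod (p ^ ν)) := by
          rw [mul_assoc, h2, mul_one]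
      _ = _ := by
          rw [h1, mul_comm]
          congr 2
          ring
  -- the integer `a`
  obtain ⟨A', hA'⟩ : ∃ A' : ℤ, (A' : ZMod (p ^ (ν - c))) = A := ⟨A.val, by simp⟩
  have hA'p : ¬ (p : ℤ) ∣ A' := by
    rintro ⟨k, hk⟩
    rw [hk] at hA'
    push_cast at hA'
    rw [← hA'] at hA
    exact Pool.Agent.Y779.R3.not_unit_pi hp (by omega) _ hA
  have : NeZero (p ^ m) := ⟨pow_ne_zero _ hp.ne_zero⟩
  have h2cop : IsCoprime ((p : ℤ) ^ m) 2 := by
    apply IsCoprime.pow_left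
    exact (hpz.coprime_iff_not_dvd).2 h2p
  obtain ⟨a, ha1, ha2⟩ : ∃ a : ℤ, (p : ℤ) ^ m ∣ 2 * a - A' ∧ 2 * |a| ≤ (p : ℤ) ^ m := by
    obtain ⟨u, v, huv⟩ := h2cop
    obtain ⟨w, hw⟩ : ∃ w : ZMod (p ^ m), w = ((v * A' : ℤ) : ZMod (p ^ m)) := ⟨_, rfl⟩
    refine ⟨w.valMinAbs, ?_, ?_⟩
    · have h1 : ((w.valMinAbs : ℤ) : ZMod (p ^ m)) = ((v * A' : ℤ) : ZMod (p ^ m)) := by
        rw [ZMod.coe_valMinAbs, hw]
      have h2 : ((p ^ m : ℕ) : ℤ) ∣ w.valMinAbs - v * A' := by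
        rw [← ZMod.intCast_zmod_eq_zero_iff_dvd]
        rw [Int.cast_sub, h1, sub_self]
      obtain ⟨k, hk⟩ := h2
      rw [Nat.cast_pow] at hk
      refine ⟨2 * k - u * A', ?_⟩
      linear_combination 2 * hk + A' * huv
    · have h1 := ZMod.valMinAbs_mem_Ioc w
      rw [Set.mem_Ioc, Nat.cast_pow] at h1
      have h3 : |w.valMinAbs * 2| ≤ (p : ℤ) ^ m := abs_le.2 ⟨h1.1.le, h1.2⟩
      rw [abs_mul] at h3
      simp only [Nat.abs_ofNat] at h3
      linarith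
  refine ⟨a, ?_, ha2, ?_⟩
  · intro h
    apply hA'p
    have h1 : (p : ℤ) ∣ 2 * a - A' := (dvd_pow_self _ (by omega)).trans ha1
    have := dvd_sub (Dvd.dvd.mul_left h 2) h1
    rwa [sub_sub_cancel] at this
  intro l0 hl0 hla J
  have hl0z : ¬ (p : ℤ) ∣ l0 := fun h => hl0 (Int.natCast_dvd_natCast.1 h)
  have hl1 : 1 ≤ l0 := by
    rcases Nat.eq_zero_or_pos l0 with h | h
    · exfalso; apply hl0; rw [h]; exact dvd_zero p
    · exact h
  obtain ⟨q, hq⟩ : ∃ q : ℕ, q = p ^ (ν - c) := ⟨_, rfl⟩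
  -- the numbers `b`
  obtain ⟨n0, hn0⟩ : ∃ n0 : ℤ → ℤ, n0 = fun u => (l0 : ℤ) + (p : ℤ) ^ m * u := ⟨_, rfl⟩
  have hn0p : ∀ u, ¬ (p : ℤ) ∣ n0 u := by
    intro u h
    apply hl0z
    rw [hn0] at h
    have h1 : (p : ℤ) ∣ (p : ℤ) ^ m * u := Dvd.dvd.mul_right (dvd_pow_self _ (by omega)) _
    have := dvd_sub h h1
    simpa using this
  have h2n0 : ∀ u, ¬ (p : ℤ) ∣ 2 * n0 u := by
    intro u h
    rcases hpz.dvd_or_dvd h with h | h
    · exact h2p h
    · exact hn0p u h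
  obtain ⟨bb, hbb⟩ : ∃ bb : ℤ → ℕ,
    bb = fun u => (A * ((2 * n0 u : ℤ) : ZMod (p ^ (ν - c)))⁻¹).val := ⟨_, rfl⟩
  have hbq : ∀ u, bb u < q := by
    intro u
    rw [hbb, hq]
    exact ZMod.val_lt _
  have hbcast : ∀ u, ((bb u : ℕ) : ZMod (p ^ (ν - c))) =
      A * ((2 * n0 u : ℤ) : ZMod (p ^ (ν - c)))⁻¹ := by
    intro u
    rw [hbb]
    simp
  have hbrel : ∀ u, ((p ^ (ν - c) : ℕ) : ℤ) ∣ 2 * n0 u * bb u - A' := by
    intro u
    rw [← ZMod.intCast_zmod_eq_zero_iff_dvd]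
    have h1 := hbcast u
    have h2 := ZMod.mul_inv_of_unit _ (hunit _ (h2n0 u))
    rw [Int.cast_sub, Int.cast_mul, Int.cast_natCast, h1, hA']
    linear_combination A * h2
  have hbpos : ∀ u, 0 < bb u := by
    intro u
    by_contra hcon
    have h0 : bb u = 0 := by omega
    have h1 := hbrel u
    rw [h0] at h1
    simp only [Nat.cast_zero, mul_zero, zero_sub, dvd_neg] at h1
    apply hA'p
    refine dvd_trans ?_ h1
    push_cast
    exact dvd_pow_self _ (by omega)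
  -- the congruence for `b`
  have hcopl : IsCoprime ((p : ℤ) ^ m) (l0 : ℤ) := by
    apply IsCoprime.pow_left
    exact (hpz.coprime_iff_not_dvd).2 hl0z
  have hbmod : ∀ u, ((p ^ m : ℕ) : ℤ) ∣ l0 * bb u - a := by
    intro u
    have h1 : (p : ℤ) ^ m ∣ 2 * n0 u * bb u - A' := by
      refine dvd_trans ?_ (hbrel u)
      push_cast
      exact pow_dvd_pow _ (by omega)
    have h2 : (p : ℤ) ^ m ∣ 2 * (l0 * bb u - a) := by
      have e : 2 * (l0 * bb u - a : ℤ) = (2 * n0 u * bb u - A') - (2 * a - A') -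
          (p : ℤ) ^ m * (2 * u * bb u) := by
        rw [hn0]; ring
      rw [e]
      exact dvd_sub (dvd_sub h1 ha1) (Dvd.intro _ rfl)
    push_cast
    exact h2cop.dvd_of_dvd_mul_left h2
  -- decomposition of the sum
  obtain ⟨P, hP⟩ : ∃ P : ℤ, P = (p : ℤ) ^ (c - m) := ⟨_, rfl⟩
  have hp0z : (0 : ℤ) < p := by exact_mod_cast hp.pos
  have hP0 : 0 < P := by rw [hP]; positivity
  have hdec : ∑ j ∈ range J, χ (((l0 : ℤ) + (p : ℤ) ^ m * j : ℤ) : ZMod (p ^ ν)) =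
      ∑ u ∈ Ico 0 P, ∑ x ∈ Ico (AA P 0 u) (AA P J u),
        χ ((n0 u + (p : ℤ) ^ c * x : ℤ) : ZMod (p ^ ν)) := by
    have h1 := class_sum (fun j : ℤ => χ (((l0 : ℤ) + (p : ℤ) ^ m * j : ℤ) : ZMod (p ^ ν)))
      P hP0 1 0 0 J (one_dvd _)
    simp only [one_dvd, Finset.filter_true] at h1
    have h2 : ∑ j ∈ range J, χ (((l0 : ℤ) + (p : ℤ) ^ m * j : ℤ) : ZMod (p ^ ν)) =
        ∑ j ∈ Ico (0 : ℤ) J, χ (((l0 : ℤ) + (p : ℤ) ^ m * j : ℤ) : ZMod (p ^ ν)) := by
      symm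
      apply Finset.sum_nbij' (fun j : ℤ => j.toNat) (fun j : ℕ => (j : ℤ))
      · intro j hj; rw [mem_Ico] at hj; rw [mem_range]; omega
      · intro j hj; rw [mem_range] at hj; rw [mem_Ico]; omega
      · intro j hj; rw [mem_Ico] at hj; omega
      · intro j hj; simp
      · intro j hj
        rw [mem_Ico] at hj
        rw [Int.toNat_of_nonneg hj.1]
    rw [h2, h1]
    apply Finset.sum_congr rfl
    intro u _
    apply Finset.sum_congr rfl
    intro x _
    congr 2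
    rw [hn0, hP]
    have e : (p : ℤ) ^ c = (p : ℤ) ^ m * (p : ℤ) ^ (c - m) := by
      rw [← pow_add]; congr 1; omega
    rw [e]; ring
  have hgeo : ∀ u : ℤ, ∀ X Y : ℤ,
      ‖∑ x ∈ Ico X Y, χ ((n0 u + (p : ℤ) ^ c * x : ℤ) : ZMod (p ^ ν))‖ ≤ gg q (bb u) := by
    intro u X Y
    obtain ⟨hz1, hz2⟩ := norm_lower (q := q) (b := bb u) (hbpos u) (hbq u)
    obtain ⟨z, hz⟩ : ∃ z : ℂ, z = Complex.exp (2 * Real.pi * Complex.I * (bb u : ℕ) / q) :=
      ⟨_, rfl⟩
    rw [← hz] at hz1 hz2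
    have hzz : (ZMod.stdAddChar (A * ((2 * n0 u : ℤ) : ZMod (p ^ (ν - c)))⁻¹) : ℂ) = z := by
      rw [← hbcast, ← Int.cast_natCast, ZMod.stdAddChar_coe, hz, hq]
      push_cast
      rfl
    refine le_trans (geo _ z ?_ ?_ hz1 X Y) hz2
    · intro x
      rw [hchi _ _ (hn0p u), hchi _ _ (hn0p u), ← hzz]
      push_cast
      rw [mul_add, mul_one, AddChar.map_add_eq_mul]
      ring
    · intro x
      exact DirichletCharacter.norm_le_one χ _
  -- the fibres
  obtain ⟨M, hM⟩ : ∃ M : ℕ, M = p ^ (c - (ν - c)) := ⟨_, rfl⟩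
  obtain ⟨N, hN⟩ : ∃ N : ℕ, N = p ^ (ν - c - m) := ⟨_, rfl⟩
  have hPN : P = ((N * M : ℕ) : ℤ) := by
    rw [hP, hN, hM, ← pow_add]
    push_cast
    congr 1
    omega
  have hN1 : 1 ≤ N := by rw [hN]; exact Nat.one_le_iff_ne_zero.2 (pow_ne_zero _ hp.ne_zero)
  have hqN : q = p ^ m * N := by
    rw [hq, hN, ← pow_add]; congr 1; omega
  have hfib : ∀ b : ℕ, ((Ico 0 P).filter (fun u => bb u = b)).card ≤ M := by
    intro b
    rcases Finset.eq_empty_or_nonempty ((Ico 0 P).filter (fun u => bb u = b)) with h | ⟨v, hv⟩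
    · rw [h]; simp
    · rw [mem_filter] at hv
      refine le_trans (Finset.card_le_card ?_) (card_class (q := N) (N := M) hN1 v)
      intro u hu
      rw [mem_filter] at hu ⊢
      refine ⟨hPN ▸ hu.1, ?_⟩
      have h1 := dvd_sub (hbrel u) (hbrel v)
      rw [hu.2, hv.2] at h1
      have hbu : ¬ (p : ℤ) ∣ 2 * b := by
        intro h
        apply hA'p
        have h2 : (p : ℤ) ∣ 2 * n0 u * bb u - A' := by
          refine dvd_trans ?_ (hbrel u)
          push_cast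
          exact dvd_pow_self _ (by omega)
        rw [hu.2] at h2
        have h3 : (p : ℤ) ∣ 2 * n0 u * b := by
          have := Dvd.dvd.mul_right h (n0 u)
          have e : 2 * (b : ℤ) * n0 u = 2 * n0 u * b := by ring
          rwa [e] at this
        have := dvd_sub h3 h2
        rwa [sub_sub_cancel] at this
      have e : (2 * n0 u * (b : ℤ) - A') - (2 * n0 v * b - A') =
          (p : ℤ) ^ m * ((2 * b) * (u - v)) := by
        rw [hn0]; ring
      rw [e, ← hq, hqN] at h1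
      push_cast at h1
      have h4 : (N : ℤ) ∣ (2 * b) * (u - v) :=
        Int.dvd_of_mul_dvd_mul_left (by positivity) h1
      have h5 : IsCoprime (N : ℤ) (2 * b) := by
        rw [hN]
        push_cast
        apply IsCoprime.pow_left
        exact (hpz.coprime_iff_not_dvd).2 hbu
      exact h5.dvd_of_dvd_mul_left h4
  rw [hdec]
  have hsum : ‖∑ u ∈ Ico 0 P, ∑ x ∈ Ico (AA P 0 u) (AA P J u),
        χ ((n0 u + (p : ℤ) ^ c * x : ℤ) : ZMod (p ^ ν))‖ ≤
      ∑ u ∈ Ico 0 P, gg q (bb u) :=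
    (norm_sum_le _ _).trans (Finset.sum_le_sum fun u _ => hgeo u _ _)
  refine hsum.trans ?_
  have hsum2 : ∑ u ∈ Ico 0 P, gg q (bb u) ≤ M * ∑ b ∈ (Ico 0 P).image bb, gg q b := by
    rw [← Finset.sum_fiberwise_of_maps_to (g := bb) (t := (Ico 0 P).image bb)
      (fun u hu => mem_image_of_mem _ hu), Finset.mul_sum]
    apply Finset.sum_le_sum
    intro b hb
    have e : ∑ u ∈ Ico 0 P with bb u = b, gg q (bb u) =
        (((Ico 0 P).filter (fun u => bb u = b)).card : ℝ) * gg q b := by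
      rw [← nsmul_eq_mul, ← Finset.sum_const]
      apply Finset.sum_congr rfl
      intro u hu
      rw [mem_filter] at hu
      rw [hu.2]
    rw [e]
    rw [mem_image] at hb
    obtain ⟨u, _, rfl⟩ := hb
    apply mul_le_mul_of_nonneg_right _ (gg_nonneg (hbq u).le)
    exact_mod_cast hfib _
  refine hsum2.trans ?_
  have hcs := csum (p ^ m) N l0 a (Nat.one_le_iff_ne_zero.2 (pow_ne_zero _ hp.ne_zero)) hN1
    (by push_cast; exact hcopl) hl1 (by push_cast; exact ha2) hla q hqN ((Ico 0 P).image bb)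
    (by
      intro b hb
      rw [mem_image] at hb
      obtain ⟨u, _, rfl⟩ := hb
      exact ⟨hbq u, hbmod u⟩)
  have hMr : (0 : ℝ) ≤ M := Nat.cast_nonneg _
  refine (mul_le_mul_of_nonneg_left hcs hMr).trans ?_
  have hpr : (0 : ℝ) < p := by exact_mod_cast hp.pos
  have hp1 : (1 : ℝ) ≤ p := by exact_mod_cast hp.one_le
  have hlogp : 0 ≤ Real.log p := Real.log_nonneg hp1
  have hMq : (M : ℝ) * q = (p : ℝ) ^ c := by
    rw [hM, hq]
    push_cast
    rw [← pow_add]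
    congr 1
    omega
  have hlogN : Real.log N ≤ ν * Real.log p := by
    rw [hN]; push_cast
    rw [Real.log_pow]
    apply mul_le_mul_of_nonneg_right _ hlogp
    exact_mod_cast (by omega : ν - c - m ≤ ν)
  have hl1r : (1 : ℝ) ≤ l0 := by exact_mod_cast hl1
  calc (M : ℝ) * (q * (2 * l0 + 1 + Real.log N) / ((p ^ m : ℕ) : ℝ))
      = ((M : ℝ) * q) * (2 * l0 + 1 + Real.log N) / (p : ℝ) ^ m := by
        push_cast; ring
    _ = (p : ℝ) ^ c * (2 * l0 + 1 + Real.log N) / (p : ℝ) ^ m := by rw [hMq]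
    _ ≤ (p : ℝ) ^ c * (10 * l0 * (1 + ν * Real.log p)) / (p : ℝ) ^ m := by
        apply div_le_div_of_nonneg_right _ (by positivity)
        apply mul_le_mul_of_nonneg_left _ (by positivity)
        have h1 : 0 ≤ ν * Real.log p := by positivity
        nlinarith
    _ = _ := by ring

end Pool.Agent.Y674.R8
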